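import Mathlib

set_option autoImplicit false

namespace Pool.Agent.H.MP_edcda5_an

open MeasureTheory Metric Set Filter Topology
open scoped ENNReal

noncomputable def U (p ε β L a b m : ℝ) : ℝ :=
  m ^ ε * b + β * (m ^ (p + ε) - L * (m ^ (p + ε - 1) * a))

lemma U_term {p ε β L a b m : ℝ} (hp : 1 < p) (hε : 0 < ε) (hβ : 0 ≤ β) (hL : 0 < L)
    (hβL : β * L ^ (p + ε) ≤ 1 / 2) (ha : 0 < a) (ham : a ≤ m) (hb : a ^ p ≤ b) :
    a ^ (p + ε) / 2 ≤ U p ε β L a b m := by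
  unfold U
  have hm : 0 < m := ha.trans_le ham
  have h1 : a ^ (p + ε) ≤ m ^ ε * b := by
    rw [Real.rpow_add ha, mul_comm]
    exact mul_le_mul (Real.rpow_le_rpow ha.le ham hε.le) hb (by positivity) (by positivity)
  have h2 : -(L ^ (p + ε) * a ^ (p + ε)) ≤ m ^ (p + ε) - L * (m ^ (p + ε - 1) * a) := by
    have e : m ^ (p + ε) = m ^ (p + ε - 1) * m := by
      rw [Real.rpow_sub_one hm.ne']; field_simp
    have hm1 : 0 < m ^ (p + ε - 1) := by positivity
    by_cases h : L * a ≤ m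
    · have : 0 ≤ L ^ (p + ε) * a ^ (p + ε) := by positivity
      have h3 : m ^ (p + ε - 1) * (L * a) ≤ m ^ (p + ε - 1) * m :=
        mul_le_mul_of_nonneg_left h hm1.le
      rw [e]; nlinarith
    · push Not at h
      have hLa : 0 < L * a := by positivity
      have h3 : m ^ (p + ε - 1) ≤ (L * a) ^ (p + ε - 1) :=
        Real.rpow_le_rpow hm.le h.le (by linarith)
      have e2 : L ^ (p + ε) * a ^ (p + ε) = (L * a) ^ (p + ε - 1) * (L * a) := by
        rw [← Real.mul_rpow hL.le ha.le, Real.rpow_sub_one hLa.ne']; field_simp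
      have h4 : m ^ (p + ε - 1) * (L * a) ≤ (L * a) ^ (p + ε - 1) * (L * a) :=
        mul_le_mul_of_nonneg_right h3 hLa.le
      have h5 : 0 ≤ m ^ (p + ε) := by positivity
      rw [e2]; nlinarith
  have h3 : β * -(L ^ (p + ε) * a ^ (p + ε)) ≤
      β * (m ^ (p + ε) - L * (m ^ (p + ε - 1) * a)) := mul_le_mul_of_nonneg_left h2 hβ
  have h4 : 0 ≤ a ^ (p + ε) := by positivity
  have h5 : β * L ^ (p + ε) * a ^ (p + ε) ≤ 1 / 2 * a ^ (p + ε) :=
    mul_le_mul_of_nonneg_right hβL h4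
  nlinarith

lemma U_step {p ε M D L b m t : ℝ} (hp : 1 < p) (hε : 0 < ε) (hε1 : ε ≤ 1) (hM : 0 ≤ M)
    (hL : L * (p - 1) = p + 1) (hm : 0 < m) (hmt : m ≤ t) (htD : t ≤ D * m)
    (hb0 : 0 ≤ b) (hb : b ≤ M * t ^ p) :
    U p ε (M * D ^ p * ε) L t b t ≤ U p ε (M * D ^ p * ε) L t b m := by
  unfold U
  have ht : 0 < t := hm.trans_le hmt
  obtain ⟨x, hx0, rfl⟩ : ∃ x : ℝ, 0 ≤ x ∧ t = m * (1 + x) := by
    refine ⟨t / m - 1, ?_, ?_⟩
    · rw [sub_nonneg, le_div_iff₀ hm]; linarith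
    · field_simp; ring
  have hx1 : 0 < 1 + x := by linarith
  have hD : 1 + x ≤ D := by
    have : m * (1 + x) ≤ m * D := by linarith
    exact le_of_mul_le_mul_left this hm
  have hD0 : 0 < D := hx1.trans_le hD
  have hL1 : 1 ≤ L := by
    by_contra h
    push Not at h
    nlinarith
  have e1 : (m * (1 + x)) ^ (p + ε - 1) * (m * (1 + x)) = (m * (1 + x)) ^ (p + ε) := by
    rw [Real.rpow_sub_one ht.ne']; field_simp
  have e2 : m ^ (p + ε - 1) * (m * (1 + x)) = m ^ (p + ε) * (1 + x) := by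
    rw [Real.rpow_sub_one hm.ne']; field_simp
  rw [e1, e2, Real.mul_rpow hm.le hx1.le, Real.mul_rpow hm.le hx1.le]
  rw [Real.mul_rpow hm.le hx1.le] at hb
  have b1 : (1 + x) ^ ε ≤ 1 + ε * x := rpow_one_add_le_one_add_mul_self (by linarith) hε.le hε1
  have b2 : 1 + p * x ≤ (1 + x) ^ (p + ε) :=
    (one_add_mul_self_le_rpow_one_add (by linarith) hp.le).trans
      (Real.rpow_le_rpow_of_exponent_le (by linarith) (by linarith))
  have b3 : (1 + x) ^ p ≤ D ^ p := Real.rpow_le_rpow hx1.le hD (by linarith)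
  have e3 : m ^ (p + ε) = m ^ p * m ^ ε := Real.rpow_add hm _ _
  have hmp : 0 < m ^ p := by positivity
  have hme : 0 < m ^ ε := by positivity
  have hDp : 0 < D ^ p := by positivity
  have hb2 : b ≤ M * (m ^ p * D ^ p) :=
    hb.trans (mul_le_mul_of_nonneg_left (mul_le_mul_of_nonneg_left b3 hmp.le) hM)
  have s1 : m ^ ε * (1 + x) ^ ε * b ≤ m ^ ε * b + M * D ^ p * ε * (m ^ (p + ε) * x) := by
    have t1 : m ^ ε * (1 + x) ^ ε * b ≤ m ^ ε * (1 + ε * x) * b :=
      mul_le_mul_of_nonneg_right (mul_le_mul_of_nonneg_left b1 hme.le) hb0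
    have t2 : m ^ ε * (ε * x) * b ≤ m ^ ε * (ε * x) * (M * (m ^ p * D ^ p)) :=
      mul_le_mul_of_nonneg_left hb2 (by positivity)
    rw [e3]
    nlinarith
  have s2 : m ^ (p + ε) * (1 + x) ^ (p + ε) - L * (m ^ (p + ε) * (1 + x) ^ (p + ε)) +
      m ^ (p + ε) * x ≤ m ^ (p + ε) - L * (m ^ (p + ε) * (1 + x)) := by
    have hmr : 0 < m ^ (p + ε) := by positivity
    have t1 : (L - 1) * (1 + p * x) ≤ (L - 1) * (1 + x) ^ (p + ε) :=
      mul_le_mul_of_nonneg_left b2 (by linarith)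
    have t2 : (1 + x) ^ (p + ε) - L * (1 + x) ^ (p + ε) + x ≤ 1 - L * (1 + x) := by
      have : L * (p - 1) * x = (p + 1) * x := by rw [hL]
      nlinarith
    have t3 := mul_le_mul_of_nonneg_left t2 hmr.le
    nlinarith
  have hβ : 0 ≤ M * D ^ p * ε := by positivity
  have s3 := mul_le_mul_of_nonneg_left s2 hβ
  nlinarith

variable {d : ℕ}

noncomputable def ch (c : Fin d → ℝ) (ρ : ℝ) (s : Fin d → Bool) : Fin d → ℝ :=
  fun i => c i + if s i then ρ / 2 else -(ρ / 2)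

lemma ball_eq (c : Fin d → ℝ) {ρ : ℝ} (hρ : 0 < ρ) :
    closedBall c ρ = ⋃ s : Fin d → Bool, closedBall (ch c ρ s) (ρ / 2) := by
  ext y
  simp only [mem_iUnion, mem_closedBall, dist_pi_le_iff hρ.le,
    dist_pi_le_iff (half_pos hρ).le, Real.dist_eq, abs_le, ch]
  constructor
  · intro h
    refine ⟨fun i => decide (c i ≤ y i), fun i => ?_⟩
    obtain ⟨h1, h2⟩ := h i
    by_cases hc : c i ≤ y i
    · simp only [hc, decide_true, if_true]; constructor <;> linarith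
    · simp only [hc, decide_false]
      push Not at hc
      simp only [Bool.false_eq_true, if_false]
      constructor <;> linarith
  · rintro ⟨s, hs⟩ i
    obtain ⟨h1, h2⟩ := hs i
    split_ifs at h1 h2 <;> constructor <;> linarith

lemma ae_disj (c : Fin d → ℝ) {ρ : ℝ} (hρ : 0 < ρ) :
    Pairwise (Function.onFun (AEDisjoint volume)
      (fun s : Fin d → Bool => closedBall (ch c ρ s) (ρ / 2))) := by
  intro s s' hss
  obtain ⟨i, hi⟩ := Function.ne_iff.1 hss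
  have h0 : (volume : Measure (Fin d → ℝ)) {f | f i = c i} = 0 :=
    Measure.pi_hyperplane (fun _ : Fin d => (volume : Measure ℝ)) i (c i)
  refine measure_mono_null ?_ h0
  rintro y ⟨h1, h2⟩
  simp only [mem_closedBall, dist_pi_le_iff (half_pos hρ).le, Real.dist_eq, abs_le, ch] at h1 h2
  have a1 := h1 i
  have a2 := h2 i
  show y i = c i
  cases hs : s i <;> cases hs' : s' i <;> simp [hs, hs'] at hi a1 a2 <;> linarith [a1.1, a1.2, a2.1, a2.2]

lemma vol_real (c : Fin d → ℝ) {ρ : ℝ} (hρ : 0 < ρ) :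
    (volume : Measure (Fin d → ℝ)).real (closedBall c ρ) = (2 * ρ) ^ d := by
  rw [Measure.real, Real.volume_pi_closedBall c hρ.le, ENNReal.toReal_ofReal (by positivity)]
  simp

noncomputable def av (f : (Fin d → ℝ) → ℝ) (c : Fin d → ℝ) (ρ : ℝ) : ℝ :=
  ⨍ y in closedBall c ρ, f y

lemma av_eq (f : (Fin d → ℝ) → ℝ) (c : Fin d → ℝ) {ρ : ℝ} (hρ : 0 < ρ) :
    av f c ρ = (∫ y in closedBall c ρ, f y) / (2 * ρ) ^ d := by
  unfold av
  rw [setAverage_eq, vol_real c hρ, smul_eq_mul, div_eq_inv_mul]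

lemma sum_av {f : (Fin d → ℝ) → ℝ} (c : Fin d → ℝ) {ρ : ℝ} (hρ : 0 < ρ)
    (hf : IntegrableOn f (closedBall c ρ)) :
    ∑ s : Fin d → Bool, av f (ch c ρ s) (ρ / 2) = 2 ^ d * av f c ρ := by
  have h1 : ∫ y in closedBall c ρ, f y =
      ∑ s : Fin d → Bool, ∫ y in closedBall (ch c ρ s) (ρ / 2), f y := by
    have h2 := integral_iUnion_ae (f := f)
      (fun s => measurableSet_closedBall.nullMeasurableSet) (ae_disj c hρ)
      (by rw [← ball_eq c hρ]; exact hf)
    rw [← ball_eq c hρ, tsum_fintype] at h2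
    exact h2
  rw [av_eq f c hρ, h1]
  simp_rw [av_eq f _ (half_pos hρ)]
  rw [← Finset.sum_div]
  have : (2 * (ρ / 2)) = ρ := by ring
  rw [this, mul_pow]
  field_simp

noncomputable def F (w : (Fin d → ℝ) → ℝ) (r : ℝ) : ℕ → (Fin d → ℝ) → ℝ → (Fin d → ℝ) → ℝ≥0∞
  | 0 => fun c ρ _ => ENNReal.ofReal (av w c ρ ^ r)
  | n + 1 => fun c ρ y => ∑ s : Fin d → Bool,
      (closedBall (ch c ρ s) (ρ / 2)).indicator (F w r n (ch c ρ s) (ρ / 2)) y

lemma F_meas (w : (Fin d → ℝ) → ℝ) (r : ℝ) (n : ℕ) : ∀ c ρ, Measurable (F w r n c ρ) := by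
  induction n with
  | zero => intro c ρ; exact measurable_const
  | succ n ih =>
    intro c ρ
    exact Finset.measurable_sum _ (fun s _ => (ih _ _).indicator measurableSet_closedBall)

lemma F_lower (w : (Fin d → ℝ) → ℝ) (r : ℝ) (n : ℕ) : ∀ (c : Fin d → ℝ) (ρ : ℝ), 0 < ρ →
    ∀ y ∈ closedBall c ρ, ∃ c', y ∈ closedBall c' (ρ / 2 ^ n) ∧
      ENNReal.ofReal (av w c' (ρ / 2 ^ n) ^ r) ≤ F w r n c ρ y := by
  induction n with
  | zero =>
    intro c ρ _ y hy
    exact ⟨c, by simpa using hy, by simp [F]⟩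
  | succ n ih =>
    intro c ρ hρ y hy
    rw [ball_eq c hρ, mem_iUnion] at hy
    obtain ⟨s, hs⟩ := hy
    obtain ⟨c', h1, h2⟩ := ih _ _ (half_pos hρ) y hs
    have e : ρ / 2 / 2 ^ n = ρ / 2 ^ (n + 1) := by rw [pow_succ]; field_simp
    rw [e] at h1 h2
    refine ⟨c', h1, h2.trans ?_⟩
    have := Finset.single_le_sum (f := fun s : Fin d → Bool =>
      (closedBall (ch c ρ s) (ρ / 2)).indicator (F w r n (ch c ρ s) (ρ / 2)) y)
      (fun _ _ => zero_le) (Finset.mem_univ s)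
    simp only [indicator_of_mem hs] at this
    exact this

lemma F_upper {w : (Fin d → ℝ) → ℝ} {p ε M L : ℝ} (hp : 1 < p) (hε : 0 < ε) (hε1 : ε ≤ 1)
    (hM : 0 ≤ M) (hL : L * (p - 1) = p + 1)
    (hβL : M * (2 ^ d : ℝ) ^ p * ε * L ^ (p + ε) ≤ 1 / 2)
    (hi : ∀ c ρ, IntegrableOn w (closedBall c ρ))
    (hi2 : ∀ c ρ, 0 < ρ → IntegrableOn (fun y => w y ^ p) (closedBall c ρ))
    (hpos : ∀ c ρ, 0 < ρ → 0 < av w c ρ)
    (hJ : ∀ c ρ, 0 < ρ → av w c ρ ^ p ≤ av (fun y => w y ^ p) c ρ)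
    (hR : ∀ c ρ, 0 < ρ → av (fun y => w y ^ p) c ρ ≤ M * av w c ρ ^ p) (n : ℕ) :
    ∀ (c : Fin d → ℝ) (ρ m : ℝ), 0 < ρ → av w c ρ ≤ m →
      ∫⁻ y in closedBall c ρ, F w (p + ε) n c ρ y ≤ ENNReal.ofReal (2 * (2 * ρ) ^ d *
        U p ε (M * (2 ^ d : ℝ) ^ p * ε) L (av w c ρ) (av (fun y => w y ^ p) c ρ) m) := by
  have hL0 : 0 < L := by
    by_contra h
    push Not at h
    nlinarith
  have hβ : 0 ≤ M * (2 ^ d : ℝ) ^ p * ε := by positivity
  have hT : ∀ c ρ m, 0 < ρ → av w c ρ ≤ m → av w c ρ ^ (p + ε) / 2 ≤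
      U p ε (M * (2 ^ d : ℝ) ^ p * ε) L (av w c ρ) (av (fun y => w y ^ p) c ρ) m :=
    fun c ρ m hρ hm => U_term hp hε hβ hL0 hβL (hpos c ρ hρ) hm (hJ c ρ hρ)
  induction n with
  | zero =>
    intro c ρ m hρ hm
    simp only [F]
    rw [setLIntegral_const, Real.volume_pi_closedBall c hρ.le,
      ← ENNReal.ofReal_mul (by have := hpos c ρ hρ; positivity)]
    apply ENNReal.ofReal_le_ofReal
    have := hT c ρ m hρ hm
    have h2 : 0 < (2 * ρ) ^ d := by positivity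
    simp only [Fintype.card_fin]
    nlinarith
  | succ n ih =>
    intro c ρ m hρ hm
    have hm0 : 0 < m := (hpos c ρ hρ).trans_le hm
    have hch : ∀ s : Fin d → Bool, av w (ch c ρ s) (ρ / 2) ≤ 2 ^ d * m := by
      intro s
      have h1 := Finset.single_le_sum (f := fun s : Fin d → Bool => av w (ch c ρ s) (ρ / 2))
        (fun s _ => (hpos _ _ (half_pos hρ)).le) (Finset.mem_univ s)
      rw [sum_av c hρ (hi c ρ)] at h1
      exact h1.trans (mul_le_mul_of_nonneg_left hm (by positivity))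
    have hU : ∀ s : Fin d → Bool,
        U p ε (M * (2 ^ d : ℝ) ^ p * ε) L (av w (ch c ρ s) (ρ / 2))
          (av (fun y => w y ^ p) (ch c ρ s) (ρ / 2)) (max m (av w (ch c ρ s) (ρ / 2))) ≤
        U p ε (M * (2 ^ d : ℝ) ^ p * ε) L (av w (ch c ρ s) (ρ / 2))
          (av (fun y => w y ^ p) (ch c ρ s) (ρ / 2)) m := by
      intro s
      rcases le_total (av w (ch c ρ s) (ρ / 2)) m with h | h
      · rw [max_eq_left h]
      · rw [max_eq_right h]
        have h0 := hpos (ch c ρ s) _ (half_pos hρ)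
        exact U_step hp hε hε1 hM hL hm0 h (hch s)
          ((by positivity : 0 ≤ av w (ch c ρ s) (ρ / 2) ^ p).trans (hJ _ _ (half_pos hρ)))
          (hR _ _ (half_pos hρ))
    have hU0 : ∀ s : Fin d → Bool, 0 ≤
        U p ε (M * (2 ^ d : ℝ) ^ p * ε) L (av w (ch c ρ s) (ρ / 2))
          (av (fun y => w y ^ p) (ch c ρ s) (ρ / 2)) m := by
      intro s
      have h0 := hpos (ch c ρ s) _ (half_pos hρ)
      refine le_trans ?_ ((hT _ _ _ (half_pos hρ) (le_max_right _ _)).trans (hU s))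
      positivity
    calc ∫⁻ y in closedBall c ρ, F w (p + ε) (n + 1) c ρ y
        ≤ ∫⁻ y, F w (p + ε) (n + 1) c ρ y := setLIntegral_le_lintegral _ _
      _ = ∑ s : Fin d → Bool, ∫⁻ y in closedBall (ch c ρ s) (ρ / 2),
            F w (p + ε) n (ch c ρ s) (ρ / 2) y := by
          simp only [F]
          rw [lintegral_finsetSum _
            (fun s _ => (F_meas w (p + ε) n _ _).indicator measurableSet_closedBall)]
          refine Finset.sum_congr rfl (fun s _ => ?_)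
          rw [lintegral_indicator measurableSet_closedBall]
      _ ≤ ∑ s : Fin d → Bool, ENNReal.ofReal (2 * (2 * (ρ / 2)) ^ d *
            U p ε (M * (2 ^ d : ℝ) ^ p * ε) L (av w (ch c ρ s) (ρ / 2))
              (av (fun y => w y ^ p) (ch c ρ s) (ρ / 2)) m) := by
          refine Finset.sum_le_sum (fun s _ => ?_)
          refine (ih _ _ _ (half_pos hρ) (le_max_right m _)).trans ?_
          apply ENNReal.ofReal_le_ofReal
          exact mul_le_mul_of_nonneg_left (hU s) (by positivity)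
      _ = _ := by
          rw [← ENNReal.ofReal_sum_of_nonneg
            (fun s _ => mul_nonneg (by positivity) (hU0 s))]
          congr 1
          rw [← Finset.mul_sum]
          unfold U
          rw [Finset.sum_add_distrib, ← Finset.mul_sum, ← Finset.mul_sum, Finset.sum_sub_distrib,
            ← Finset.mul_sum, ← Finset.mul_sum, sum_av c hρ (hi c ρ), sum_av c hρ (hi2 c ρ hρ)]
          have : (2 * (ρ / 2)) = ρ := by ring
          rw [this, mul_pow]
          simp only [Finset.sum_const, Finset.card_univ, Fintype.card_fun, Fintype.card_bool,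
            Fintype.card_fin, nsmul_eq_mul]
          push_cast
          ring

lemma core {w : (Fin d → ℝ) → ℝ} {p ε M L : ℝ} (hp : 1 < p) (hε : 0 < ε) (hε1 : ε ≤ 1)
    (hM : 0 ≤ M) (hL : L * (p - 1) = p + 1)
    (hβL : M * (2 ^ d : ℝ) ^ p * ε * L ^ (p + ε) ≤ 1 / 2)
    (hw : LocallyIntegrable w)
    (hi2 : ∀ c ρ, 0 < ρ → IntegrableOn (fun y => w y ^ p) (closedBall c ρ))
    (hpos : ∀ c ρ, 0 < ρ → 0 < av w c ρ)
    (hJ : ∀ c ρ, 0 < ρ → av w c ρ ^ p ≤ av (fun y => w y ^ p) c ρ)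
    (hR : ∀ c ρ, 0 < ρ → av (fun y => w y ^ p) c ρ ≤ M * av w c ρ ^ p)
    (c : Fin d → ℝ) {ρ : ℝ} (hρ : 0 < ρ) :
    ∫⁻ y in closedBall c ρ, ENNReal.ofReal (w y ^ (p + ε)) ≤
      ENNReal.ofReal ((2 * ρ) ^ d * (2 * M * av w c ρ ^ (p + ε))) := by
  have hi : ∀ c ρ, IntegrableOn w (closedBall c ρ) :=
    fun c ρ => hw.integrableOn_isCompact (isCompact_closedBall c ρ)
  have hL1 : 1 ≤ L := by
    by_contra h
    push Not at h
    nlinarith
  have h1 : ∀ n, ∫⁻ y in closedBall c ρ, F w (p + ε) n c ρ y ≤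
      ENNReal.ofReal ((2 * ρ) ^ d * (2 * M * av w c ρ ^ (p + ε))) := by
    intro n
    refine (F_upper hp hε hε1 hM hL hβL hi hi2 hpos hJ hR n c ρ _ hρ le_rfl).trans ?_
    apply ENNReal.ofReal_le_ofReal
    have ha := hpos c ρ hρ
    have hU : U p ε (M * (2 ^ d : ℝ) ^ p * ε) L (av w c ρ) (av (fun y => w y ^ p) c ρ) (av w c ρ)
        ≤ M * av w c ρ ^ (p + ε) := by
      unfold U
      have e1 : av w c ρ ^ (p + ε - 1) * av w c ρ = av w c ρ ^ (p + ε) := by
        rw [Real.rpow_sub_one ha.ne']; field_simp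
      rw [e1]
      have t1 : av w c ρ ^ ε * av (fun y => w y ^ p) c ρ ≤ av w c ρ ^ ε * (M * av w c ρ ^ p) :=
        mul_le_mul_of_nonneg_left (hR c ρ hρ) (by positivity)
      have e2 : av w c ρ ^ (p + ε) = av w c ρ ^ p * av w c ρ ^ ε := Real.rpow_add ha _ _
      have t2 : M * (2 ^ d : ℝ) ^ p * ε *
          (av w c ρ ^ (p + ε) - L * av w c ρ ^ (p + ε)) ≤ 0 := by
        apply mul_nonpos_of_nonneg_of_nonpos (by positivity)
        have : 0 < av w c ρ ^ (p + ε) := by positivity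
        nlinarith
      rw [e2] at t2 ⊢
      nlinarith
    have h2 : 0 < (2 * ρ) ^ d := by positivity
    nlinarith
  have h2 : ∀ᵐ y ∂(volume.restrict (closedBall c ρ)), ENNReal.ofReal (w y ^ (p + ε)) ≤
      liminf (fun n => F w (p + ε) n c ρ y) atTop := by
    rw [ae_restrict_iff' measurableSet_closedBall]
    filter_upwards [IsUnifLocDoublingMeasure.ae_tendsto_average volume hw 1] with y hy hyc
    choose c' hc1 hc2 using fun n => F_lower w (p + ε) n c ρ hρ y hyc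
    have hδ : Tendsto (fun n : ℕ => ρ / 2 ^ n) atTop (𝓝[>] 0) := by
      apply tendsto_nhdsWithin_of_tendsto_nhds_of_eventually_within
      · exact tendsto_const_nhds.div_atTop (tendsto_pow_atTop_atTop_of_one_lt one_lt_two)
      · exact Eventually.of_forall (fun n => by simp only [mem_Ioi]; positivity)
    have h3 := hy c' (fun n : ℕ => ρ / 2 ^ n) hδ
      (Eventually.of_forall (fun n => by simpa using hc1 n))
    have h4 : Tendsto (fun n : ℕ => ENNReal.ofReal (av w (c' n) (ρ / 2 ^ n) ^ (p + ε))) atTop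
        (𝓝 (ENNReal.ofReal (w y ^ (p + ε)))) :=
      ENNReal.tendsto_ofReal (h3.rpow_const (Or.inr (by linarith)))
    rw [← h4.liminf_eq]
    exact liminf_le_liminf (Eventually.of_forall hc2)
  refine (lintegral_mono_ae h2).trans ?_
  refine (lintegral_liminf_le (fun n => F_meas w (p + ε) n c ρ)).trans ?_
  exact liminf_le_of_frequently_le' (Frequently.of_forall h1)

def cube (a : Fin d → ℝ) (h : ℝ) : Set (Fin d → ℝ) := Icc a (fun i => a i + h)

noncomputable def avg (f : (Fin d → ℝ) → ℝ) (a : Fin d → ℝ) (h : ℝ) : ℝ≥0∞ :=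
  (∫⁻ x in cube a h, ENNReal.ofReal (f x)) / volume (cube a h)

noncomputable def RH (p : ℝ) (w : (Fin d → ℝ) → ℝ) : ℝ≥0∞ :=
  ⨆ (a : Fin d → ℝ) (h : ℝ) (_ : 0 < h), avg (fun x => w x ^ p) a h ^ (1 / p) / avg w a h

lemma cube_eq (c : Fin d → ℝ) {ρ : ℝ} (hρ : 0 < ρ) :
    cube (fun i => c i - ρ) (2 * ρ) = closedBall c ρ := by
  ext y
  simp only [cube, mem_Icc, Pi.le_def, mem_closedBall, dist_pi_le_iff hρ.le, Real.dist_eq, abs_le]
  constructor
  · rintro ⟨h1, h2⟩ i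
    constructor <;> linarith [h1 i, h2 i]
  · intro h
    constructor <;> intro i <;> linarith [(h i).1, (h i).2]

lemma avg_eq {f : (Fin d → ℝ) → ℝ} (hf : ∀ x, 0 ≤ f x) (c : Fin d → ℝ) {ρ : ℝ} (hρ : 0 < ρ)
    (hi : IntegrableOn f (closedBall c ρ)) :
    avg f (fun i => c i - ρ) (2 * ρ) = ENNReal.ofReal (av f c ρ) := by
  unfold avg
  rw [cube_eq c hρ, ← ofReal_integral_eq_lintegral_ofReal hi (Eventually.of_forall hf),
    Real.volume_pi_closedBall c hρ.le, av_eq f c hρ, ENNReal.ofReal_div_of_pos (by positivity)]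
  simp

theorem main (d : ℕ) (p : ℝ) (hp : 1 < p) : ∃ c : ℝ, 0 < c ∧
    ∀ w : (Fin d → ℝ) → ℝ, LocallyIntegrable w → (∀ x, 0 < w x) → RH p w ≠ ⊤ →
      ∀ (a : Fin d → ℝ) (h : ℝ), 0 < h → ∀ ε : ℝ, 0 < ε → ε ≤ c * (RH p w).toReal ^ (-p) →
        avg (fun x => w x ^ (p + ε)) a h ≤ 2 * RH p w ^ (p + ε) * avg w a h ^ (p + ε) := by
  set L : ℝ := (p + 1) / (p - 1) with hLdef
  have hp1 : 0 < p - 1 := by linarith
  have hL : L * (p - 1) = p + 1 := by rw [hLdef]; field_simp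
  have hL1 : 1 ≤ L := by rw [hLdef, le_div_iff₀ hp1]; linarith
  have hD1 : (1 : ℝ) ≤ (2 ^ d : ℝ) ^ p :=
    Real.one_le_rpow (one_le_pow₀ (by norm_num)) (by linarith)
  have hLp : (1 : ℝ) ≤ L ^ (p + 1) := Real.one_le_rpow hL1 (by linarith)
  refine ⟨1 / (2 * (2 ^ d : ℝ) ^ p * L ^ (p + 1)), by positivity, ?_⟩
  intro w hw hw0 hK a h hh ε hε hεc
  set K := (RH p w).toReal with hKdef
  have hK0 : 0 ≤ K := ENNReal.toReal_nonneg
  have hKe : RH p w = ENNReal.ofReal K := (ENNReal.ofReal_toReal hK).symm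
  have hi : ∀ c ρ, IntegrableOn w (closedBall c ρ) :=
    fun c ρ => hw.integrableOn_isCompact (isCompact_closedBall c ρ)
  have hv0 : ∀ (c : Fin d → ℝ) (ρ : ℝ), 0 < ρ → volume (closedBall c ρ) ≠ 0 :=
    fun c ρ hρ => (measure_closedBall_pos volume c hρ).ne'
  have hpos : ∀ c ρ, 0 < ρ → 0 < av w c ρ := by
    intro c ρ hρ
    rw [av_eq w c hρ]
    refine div_pos ?_ (by positivity)
    rw [setIntegral_pos_iff_support_of_nonneg_ae (Eventually.of_forall (fun x => (hw0 x).le))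
      (hi c ρ)]
    have : Function.support w = univ := by
      ext x; simp [(hw0 x).ne']
    rw [this, univ_inter]
    exact measure_closedBall_pos volume c hρ
  have hle : ∀ c ρ, 0 < ρ → avg (fun x => w x ^ p) (fun i => c i - ρ) (2 * ρ) ≤
      ENNReal.ofReal (K ^ p * av w c ρ ^ p) := by
    intro c ρ hρ
    have h1 : avg (fun x => w x ^ p) (fun i => c i - ρ) (2 * ρ) ^ (1 / p) /
        avg w (fun i => c i - ρ) (2 * ρ) ≤ RH p w := by
      unfold RH
      exact le_iSup₂_of_le (fun i => c i - ρ) (2 * ρ) (le_iSup_of_le (by positivity) le_rfl)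
    rw [avg_eq (fun x => (hw0 x).le) c hρ (hi c ρ), hKe,
      ENNReal.div_le_iff (by simpa using hpos c ρ hρ) ENNReal.ofReal_ne_top,
      ← ENNReal.ofReal_mul hK0] at h1
    have h2 := ENNReal.rpow_le_rpow h1 (by linarith : 0 ≤ p)
    rw [← ENNReal.rpow_mul, one_div_mul_cancel (by linarith), ENNReal.rpow_one,
      ENNReal.ofReal_rpow_of_nonneg (mul_nonneg hK0 (hpos c ρ hρ).le) (by linarith),
      Real.mul_rpow hK0 (hpos c ρ hρ).le] at h2
    exact h2
  have hi2 : ∀ c ρ, 0 < ρ → IntegrableOn (fun y => w y ^ p) (closedBall c ρ) := by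
    intro c ρ hρ
    refine ⟨((hi c ρ).1.aemeasurable.pow_const p).aestronglyMeasurable, ?_⟩
    rw [hasFiniteIntegral_iff_ofReal
      (Eventually.of_forall (fun x => Real.rpow_nonneg (hw0 x).le p))]
    have h1 := hle c ρ hρ
    unfold avg at h1
    rw [cube_eq c hρ, ENNReal.div_le_iff (hv0 c ρ hρ) measure_closedBall_lt_top.ne] at h1
    exact h1.trans_lt (ENNReal.mul_lt_top ENNReal.ofReal_lt_top measure_closedBall_lt_top)
  have hR : ∀ c ρ, 0 < ρ → av (fun y => w y ^ p) c ρ ≤ K ^ p * av w c ρ ^ p := by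
    intro c ρ hρ
    have h1 := hle c ρ hρ
    have h0 := hpos c ρ hρ
    rw [avg_eq (fun x => Real.rpow_nonneg (hw0 x).le p) c hρ (hi2 c ρ hρ),
      ENNReal.ofReal_le_ofReal_iff (by positivity)] at h1
    exact h1
  have hJ : ∀ c ρ, 0 < ρ → av w c ρ ^ p ≤ av (fun y => w y ^ p) c ρ := by
    intro c ρ hρ
    exact (convexOn_rpow hp.le).map_set_average_le
      (continuousOn_id.rpow_const (fun _ _ => Or.inr (by linarith))) isClosed_Ici (hv0 c ρ hρ)
      measure_closedBall_lt_top.ne (Eventually.of_forall (fun x => (hw0 x).le)) (hi c ρ)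
      (hi2 c ρ hρ)
  have hKp : 1 ≤ K ^ p := by
    have h1 := (hJ 0 1 one_pos).trans (hR 0 1 one_pos)
    have h0 := hpos 0 1 one_pos
    have h2 : 0 < av w 0 1 ^ p := by positivity
    nlinarith
  have hK1 : 1 ≤ K := by
    by_contra hc
    push Not at hc
    have := Real.rpow_lt_one hK0 hc (by linarith : 0 < p)
    linarith
  rw [Real.rpow_neg hK0] at hεc
  have hc2 : ε * (2 * (2 ^ d : ℝ) ^ p * L ^ (p + 1) * K ^ p) ≤ 1 := by
    rw [← le_div_iff₀ (by positivity)]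
    refine hεc.trans (le_of_eq ?_)
    field_simp
  have hε1 : ε ≤ 1 := by
    have h1 : 1 ≤ (2 ^ d : ℝ) ^ p * L ^ (p + 1) * K ^ p :=
      one_le_mul_of_one_le_of_one_le (one_le_mul_of_one_le_of_one_le hD1 hLp) hKp
    nlinarith
  have hβL : K ^ p * (2 ^ d : ℝ) ^ p * ε * L ^ (p + ε) ≤ 1 / 2 := by
    have h1 : L ^ (p + ε) ≤ L ^ (p + 1) := Real.rpow_le_rpow_of_exponent_le hL1 (by linarith)
    have h2 : K ^ p * (2 ^ d : ℝ) ^ p * ε * L ^ (p + ε) ≤
        K ^ p * (2 ^ d : ℝ) ^ p * ε * L ^ (p + 1) :=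
      mul_le_mul_of_nonneg_left h1 (by positivity)
    nlinarith
  obtain ⟨c, ρ, hρ, rfl, rfl⟩ : ∃ (c : Fin d → ℝ) (ρ : ℝ), 0 < ρ ∧ a = (fun i => c i - ρ) ∧
      h = 2 * ρ :=
    ⟨fun i => a i + h / 2, h / 2, half_pos hh, by funext i; ring, by ring⟩
  have h1 := core hp hε hε1 (by positivity) hL hβL hw hi2 hpos hJ hR c hρ
  have h0 := hpos c ρ hρ
  rw [avg_eq (fun x => (hw0 x).le) c hρ (hi c ρ), hKe,
    ENNReal.ofReal_rpow_of_nonneg hK0 (by linarith),
    ENNReal.ofReal_rpow_of_nonneg h0.le (by linarith)]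
  unfold avg
  rw [cube_eq c hρ, ENNReal.div_le_iff (hv0 c ρ hρ) measure_closedBall_lt_top.ne,
    Real.volume_pi_closedBall c hρ.le, ← ENNReal.ofReal_ofNat 2,
    ← ENNReal.ofReal_mul (by norm_num), ← ENNReal.ofReal_mul (by positivity),
    ← ENNReal.ofReal_mul (by positivity)]
  refine h1.trans (ENNReal.ofReal_le_ofReal ?_)
  have h2 : K ^ p ≤ K ^ (p + ε) := Real.rpow_le_rpow_of_exponent_le hK1 (by linarith)
  simp only [Fintype.card_fin]
  have h3 : 0 ≤ (2 * ρ) ^ d * (2 * av w c ρ ^ (p + ε)) := by positivity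
  nlinarith [mul_le_mul_of_nonneg_left h2 h3]

end Pool.Agent.H.MP_edcda5_an
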